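import Mathlib
import Pool.Agent.Work.MP_97603a_co.Defs
import Pool.Agent.Work.MP_97603a_co.Hedge.Main

namespace Pool.Agent.Results.MP_97603a_co.LinearCount

open Pool.Agent.Work.MP_97603a_co

/-- A finite loopless digraph on `n` vertices in which every vertex has out-degree at least 3 has
at least `n - 1` unordered friendly partitions. -/
theorem result (V : Type) [Fintype V] (G : Digraph V) (hl : ∀ x, ¬ G.Adj x x)
    (hd : ∀ x, 3 ≤ {y | G.Adj x y}.ncard) :
    Fintype.card V ≤
      {P : Set (Set V) | ∃ U W, IsFriendlyPartition G U W ∧ P = {U, W}}.ncard + 1 :=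
  Hedge.card_le V G hl hd

end Pool.Agent.Results.MP_97603a_co.LinearCount
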