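import Mathlib
import Pool.Agent.Work.MP_97603a_co.Defs
import Pool.Agent.Work.MP_97603a_co.Q2.Main

namespace Pool.Agent.Results.MP_97603a_co.OutDegreeThree

open Pool.Agent.Work.MP_97603a_co

/-- In every finite loopless digraph in which every vertex has out-degree at least 3, every set of
at least two vertices (in particular every pair of distinct vertices) is separable by a friendly
partition. -/
theorem result (V : Type) [Fintype V] (G : Digraph V) (hl : ∀ x, ¬ G.Adj x x)
    (hd : ∀ x, 3 ≤ {y | G.Adj x y}.ncard) (S : Finset V) (hS : 2 ≤ S.card) :
    Separable G S :=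
  Q2.separable_three V G hl hd S hS

end Pool.Agent.Results.MP_97603a_co.OutDegreeThree
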